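import Pool.Agent.InfS.Base4

/-!
# Infinitely many elliptic curves over ℚ with torsion group ℤ/4 and rank at least 8

The curves are `E : y² = x (x² + (106 a² - 240 a + 560) x + 25 (a - 4)² (9a - 4)²)` with `a = u²`,
`v² = 1160 - 209 u²`, `w² = 130 u² + 209` (a curve of genus one, isomorphic to
`y² = x (x + 150800)(x - 43681)`, of positive rank).  In terms of `t = 5 (a - 4)(9a - 4)/(16 (a + 5)²)` the curve is
`y² = x (x² + (2t + 1) x + t²)`, the universal curve with a point of order 4.
With `q = (a - 4)(9a - 4)` eight independent points have the abscissas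
`25q/16`, `-25q/9`, `-9 (a-4) q/a`, `-(9a-4) q/a`, `-25 (a-4) q/(9a)`, `729 (9a-4) q/v²`, `2401 (a-4) q/v²`,
`225 (9a-4) q/v²`.
The covering of the `t`-line is not abelian: the last three points are conjugate to the three before.
The torsion subgroup and the independence are found by reduction modulo small primes; the theorem of Mazur is not
used.
-/

set_option autoImplicit false

namespace Pool.Agent.Results.MP_9e6228_nt.TorsionFourRankEight

open Pool.Agent.InfS

theorem result : Set.Infinite {j : ℚ | ∃ (E : WeierstrassCurve ℚ) (_ : E.IsElliptic),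
    E.j = j ∧ Nonempty (AddCommGroup.torsion E.toAffine.Point ≃+ ZMod 4) ∧
    8 ≤ Module.rank ℤ E.toAffine.Point} :=
  final4

end Pool.Agent.Results.MP_9e6228_nt.TorsionFourRankEight
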