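import Pool.Agent.InfV.Base24

/-!
# Infinitely many elliptic curves over ℚ with torsion group ℤ/2 × ℤ/4 and rank at least 6

The curves are `y² = x (x + m²)(x + n²)`, `m = 161 k² - 578 k + 161`, `n = 161 k² + 578 k + 161`, where
`p² = 2 (393129 k² - 25921)`, `q² = 2 (393129 - 25921 k²)` (a curve of genus one, isomorphic to
`y² = x (x + 161⁴)(x + 627⁴)`, of positive rank).  They are 2-isogenous to `y² = x (x - 1)(x - t²)`,
`t = 578 k/(161 (k² + 1))`, where the six points have the abscissas `(289/161)²`, `(627/725)²`, `(p/(476 k))²`,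
`(q/476)²` and two more, `(U/(320 (k² + 1) W k p))²`, `(V/(320 (k² + 1) Z q))²` with polynomials `U`, `V`, `W`, `Z`
in `k`.  The points are sections of two K3 surfaces of Picard number 20 (one with `s = t²`, twisted by
`-29 (Y - 1)(Y - 183604/209525)`, `Y = (1 - k²)/(1 + k²)`, and its mirror image).
The torsion subgroup and the independence are found by reduction modulo small primes; the theorem of Mazur is not
used.
-/

set_option autoImplicit false

namespace Pool.Agent.Results.MP_9e6228_nt.TorsionTwoFourRankSix

open Pool.Agent.InfV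

theorem result : Set.Infinite {j : ℚ | ∃ (E : WeierstrassCurve ℚ) (_ : E.IsElliptic),
    E.j = j ∧ Nonempty (AddCommGroup.torsion E.toAffine.Point ≃+ ZMod 2 × ZMod 4) ∧
    6 ≤ Module.rank ℤ E.toAffine.Point} :=
  final24

end Pool.Agent.Results.MP_9e6228_nt.TorsionTwoFourRankSix
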