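import Pool.Agent.InfW.Base12

/-!
# Infinitely many elliptic curves over ℚ with torsion group ℤ/2 and rank at least 12

The curves are `y² = x (x² + A x + B)` with `A = -75127360126 (a + 36)(4 a + 25)`,
`B = 22593196761258923035600 a⁴ + 1731932490959651766258200 a³ + 55812985897213088574755725 a² +
389684810465921647408095000 a + 1143780586038732978677250000`, `a = r²`, where `391 u² = 64 r² + 3375`,
`391 v² = 15 r² + 64` (a curve of genus one, isomorphic to `y² = x (x + 64²)(x + 225²)`, of positive rank).
The twelve points have the abscissas `1494339301 z²` with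
`z = 21850 (r² - 15)/2201, 2300 (r² - 15)/19, 185725 r/2201, 19550 r/19, 1700 (r² + 15)/179, 16150 (r² + 15)/1409,
19550 u v/179, 185725 u v/1409, 391 v, 391 r u/15, 782 (v r - u)/15, 782 (v r + u)/15`.
The torsion subgroup and the independence are found by reduction modulo small primes; the theorem of Mazur is not
used.
-/

set_option autoImplicit false

namespace Pool.Agent.Results.MP_9e6228_nt.TorsionTwoRankTwelve

open Pool.Agent.InfW

theorem result : Set.Infinite {j : ℚ | ∃ (E : WeierstrassCurve ℚ) (_ : E.IsElliptic),
    E.j = j ∧ Nonempty (AddCommGroup.torsion E.toAffine.Point ≃+ ZMod 2) ∧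
    12 ≤ Module.rank ℤ E.toAffine.Point} :=
  final12

end Pool.Agent.Results.MP_9e6228_nt.TorsionTwoRankTwelve
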