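import Pool.Agent.InfR.Base26

/-!
# Infinitely many elliptic curves over ℚ with torsion group ℤ/2 × ℤ/6 and rank at least 4

The curves are `E_r : y² = x (x + r³ (r+2)) (x + 2r + 1)`, where `r = (9 - u²)/(3 (u² - 1))`,
`v² = 10u² + 54`, `w² = 6u² + 10` (a curve of genus one, isomorphic to `y² = x (x + 25)(x + 81)`).  Four points
of `E_r` have the abscissas `r² (r+3)(2r+1)/(3r+1)`, `-4r (r+2)(2r+1)/(3(3r+1))`, `-4r² (r+2)(2r+1)/(3(r+3))`,
`4r² (r+2)(2r+1)/((3r+1)(r+3))`.
The torsion subgroup and the independence are found by reduction modulo small primes; the theorem of Mazur is not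
used.
-/

set_option autoImplicit false

namespace Pool.Agent.Results.MP_9e6228_nt.TorsionTwoSixRankFour

open Pool.Agent.InfR

theorem result : Set.Infinite {j : ℚ | ∃ (E : WeierstrassCurve ℚ) (_ : E.IsElliptic),
    E.j = j ∧ HasTorsion E 2 6 ∧ 4 ≤ Module.rank ℤ E.toAffine.Point} :=
  final26

end Pool.Agent.Results.MP_9e6228_nt.TorsionTwoSixRankFour
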